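import Mathlib
import Pool.Agent.Lib.MP_16b0c2_al.Main

set_option autoImplicit false

namespace Pool.Agent.Results.MP_16b0c2_al.NormalContainment

open Pool.Agent.Lib.MP_16b0c2_al
open scoped commutatorElement

universe u

/-- A free group on at most one generator is cyclic. -/
lemma cyclic_of_subsingleton (Y : Type u) [Subsingleton Y] : IsCyclic (FreeGroup Y) := by
  rcases isEmpty_or_nonempty Y with hY | ⟨⟨y⟩⟩
  · infer_instance
  · refine ⟨⟨FreeGroup.of y, ?_⟩⟩
    intro w
    change w ∈ Subgroup.zpowers (FreeGroup.of y)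
    induction w using FreeGroup.induction_on with
    | C1 => exact one_mem _
    | of x => rw [Subsingleton.elim x y]; exact Subgroup.mem_zpowers _
    | inv_of x hx => exact inv_mem hx
    | mul a b ha hb => exact mul_mem ha hb

/-- The theorem when the two subgroups generate the free group. -/
lemma step {X : Type u} (R S : Subgroup (FreeGroup X)) [R.Normal] (hRS : R ⊔ S = ⊤)
    (hc : ⁅R, R⁆ ≤ ⁅S, S⁆) : R ≤ S ∨ ∀ a ∈ R, ∀ b ∈ R, a * b = b * a := by
  rcases subsingleton_or_nontrivial X with hX | hX
  · right
    intro a _ b _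
    have := cyclic_of_subsingleton X
    exact (IsCyclic.isMulCommutative (α := FreeGroup X)).is_comm.comm a b
  · rcases finite_or_infinite (FreeGroup X ⧸ S) with hf | hf
    · left
      rw [finite_case hc hRS hX]
      exact le_top
    · right
      have hS : S = ⊥ := infinite_case hc hRS
      intro a ha b hb
      rw [hS, Subgroup.commutator_bot_left] at hc
      have h1 : ⁅a, b⁆ ∈ (⊥ : Subgroup (FreeGroup X)) :=
        hc (Subgroup.commutator_mem_commutator ha hb)
      rw [Subgroup.mem_bot, commutatorElement_eq_one_iff_mul_comm] at h1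
      exact h1

theorem result {F : Type u} [Group F] [IsFreeGroup F] (hF : ¬ IsCyclic F)
    (R S : Subgroup F) (hR : R.Normal) (h : ⁅R, R⁆ ≤ ⁅S, S⁆) : R ≤ S := by
  classical
  -- the subgroup generated by the two given ones is free
  set G : Subgroup F := R ⊔ S with hG
  have hRG : R ≤ G := le_sup_left
  have hSG : S ≤ G := le_sup_right
  let e : G ≃* FreeGroup (IsFreeGroup.Generators G) := IsFreeGroup.toFreeGroup G
  let R' : Subgroup G := R.subgroupOf G
  let S' : Subgroup G := S.subgroupOf G
  have hR' : R'.Normal := Subgroup.Normal.subgroupOf hR G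
  have hsup : R' ⊔ S' = ⊤ := by
    rw [← Subgroup.subgroupOf_sup hRG hSG, ← hG, Subgroup.subgroupOf_self]
  have hc' : ⁅R', R'⁆ ≤ ⁅S', S'⁆ := by
    rw [← Subgroup.map_le_map_iff_of_injective (f := G.subtype) G.subtype_injective,
      Subgroup.map_commutator, Subgroup.map_commutator]
    simp only [R', S', Subgroup.map_subgroupOf_eq_of_le hRG, Subgroup.map_subgroupOf_eq_of_le hSG]
    exact h
  let R₁ : Subgroup (FreeGroup (IsFreeGroup.Generators G)) := R'.map e.toMonoidHom
  let S₁ : Subgroup (FreeGroup (IsFreeGroup.Generators G)) := S'.map e.toMonoidHom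
  have hR₁ : R₁.Normal := Subgroup.Normal.map hR' e.toMonoidHom e.surjective
  have hsup₁ : R₁ ⊔ S₁ = ⊤ := by
    simp only [R₁, S₁]
    rw [← Subgroup.map_sup, hsup]
    exact Subgroup.map_top_of_surjective _ e.surjective
  have hc₁ : ⁅R₁, R₁⁆ ≤ ⁅S₁, S₁⁆ := by
    simp only [R₁, S₁]
    rw [← Subgroup.map_commutator, ← Subgroup.map_commutator]
    exact Subgroup.map_mono hc'
  rcases step R₁ S₁ hsup₁ hc₁ with hle | hcomm
  · have h1 : R' ≤ S' :=
      (Subgroup.map_le_map_iff_of_injective (f := e.toMonoidHom) e.injective).mp hle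
    intro r hr
    exact h1 (show (⟨r, hRG hr⟩ : G) ∈ R' from hr)
  · -- `R` is commutative, hence trivial
    have hRcomm : ∀ a ∈ R, ∀ b ∈ R, a * b = b * a := by
      intro a ha b hb
      have h1 := hcomm (e ⟨a, hRG ha⟩) ⟨⟨a, hRG ha⟩, ha, rfl⟩ (e ⟨b, hRG hb⟩) ⟨⟨b, hRG hb⟩, hb, rfl⟩
      rw [← map_mul, ← map_mul] at h1
      have h2 := e.injective h1
      simpa using congrArg Subtype.val h2
    let f : F ≃* FreeGroup (IsFreeGroup.Generators F) := IsFreeGroup.toFreeGroup F
    have hY : Nontrivial (IsFreeGroup.Generators F) := by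
      rcases subsingleton_or_nontrivial (IsFreeGroup.Generators F) with hs | hn
      · exfalso
        apply hF
        have := cyclic_of_subsingleton (IsFreeGroup.Generators F)
        exact isCyclic_of_surjective f.symm f.symm.surjective
      · exact hn
    intro r hr
    have h1 : f r = 1 := by
      apply eq_one_of_comm hY
      intro w
      obtain ⟨w', rfl⟩ := f.surjective w
      rw [← map_inv, ← map_mul, ← map_mul, ← map_mul, ← map_mul]
      rw [hRcomm r hr _ (hR.conj_mem r hr w')]
    have h2 : r = 1 := by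
      apply f.injective
      rw [h1, map_one]
    rw [h2]
    exact one_mem S

end Pool.Agent.Results.MP_16b0c2_al.NormalContainment
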